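import Pool.Agent.Helper27.HY.Stm

/-!
# P3: the sign from the Wick formula, the decomposition and the nonvanishing theorem
-/

set_option autoImplicit false

open scoped BigOperators
open MvPolynomial

namespace Pool.Agent.Helper95.HY

open Pool.Agent.Helper27.HY

/-! ### reality -/

theorem mom_conj (k : ℕ) : (starRingEnd ℂ) (mom k) = mom k := by
  induction k using Nat.twoStepInduction with
  | zero => simp [mom]
  | one => simp [mom]
  | more k h1 _ => simp [mom, h1]

theorem mom_odd (k : ℕ) (h : Odd k) : mom k = 0 := by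
  induction k using Nat.twoStepInduction with
  | zero => simp at h
  | one => simp [mom]
  | more k h1 _ =>
    have : Odd k := by
      rcases h with ⟨l, hl⟩
      exact ⟨l - 1, by omega⟩
    simp [mom, h1 this]

theorem E_conj {r : ℕ} (p : S r) :
    E r (MvPolynomial.map (starRingEnd ℂ) p) = (starRingEnd ℂ) (E r p) := by
  induction p using MvPolynomial.induction_on' with
  | monomial d c =>
    rw [map_monomial, E_monomial, E_monomial, map_mul, map_prod]
    simp only [mom_conj]
  | add p q hp hq => rw [map_add, map_add, map_add, map_add, hp, hq]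

/-- the signs -/
def sgn {r : ℕ} : Option (Fin r) → ℂ
  | none => 1
  | some _ => -1

theorem sgn_mom {r : ℕ} (a : Option (Fin r)) (k : ℕ) : sgn a ^ k * mom k = mom k := by
  cases a with
  | none => simp [sgn]
  | some a =>
    rcases Nat.even_or_odd k with h | h
    · simp [sgn, h.neg_one_pow]
    · simp [mom_odd k h]

/-- the change of signs of the variables `g_k`, `k ≥ 1` -/
noncomputable def sg {r : ℕ} : S r →ₐ[ℂ] S r := aeval fun a => C (sgn a) * X a

theorem E_sg {r : ℕ} (p : S r) : E r (sg p) = E r p := by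
  induction p using MvPolynomial.induction_on' with
  | monomial d c =>
    have h1 : sg (monomial d c : S r) = monomial d (c * ∏ a, sgn a ^ d a) := by
      rw [sg, aeval_monomial, Finsupp.prod_fintype _ _ (fun a => pow_zero _)]
      simp only [mul_pow]
      rw [Finset.prod_mul_distrib, MvPolynomial.algebraMap_eq, ← mul_assoc]
      have h2 : ∏ a : Option (Fin r), (X a : S r) ^ d a = monomial d 1 := by
        rw [monomial_eq, Finsupp.prod_fintype _ _ (fun a => pow_zero _)]
        simp
      have h3 : ∏ a : Option (Fin r), (C (sgn a) : S r) ^ d a = C (∏ a, sgn a ^ d a) := by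
        rw [map_prod]
        simp only [map_pow]
      rw [h2, h3, ← C_mul, C_mul_monomial, mul_one]
    rw [h1, E_monomial, E_monomial, mul_assoc, ← Finset.prod_mul_distrib]
    simp only [sgn_mom]
  | add p q hp hq => rw [map_add, map_add, map_add, hp, hq]

variable {J : Type} [Fintype J] [DecidableEq J] {r : ℕ}

theorem f_real (A0 : Matrix J J ℝ) (A : Fin r → Matrix J J ℝ) (hJ : Even (Fintype.card J))
    (v : ℝ) : (starRingEnd ℂ) (f A0 A ((Complex.I * (v : ℂ)) • (1 : Matrix J J ℂ)))
      = f A0 A ((Complex.I * (v : ℂ)) • (1 : Matrix J J ℂ)) := by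
  unfold f
  set M : Matrix J J (S r) := ((Complex.I * (v : ℂ)) • (1 : Matrix J J ℂ)).map C + GA A0 A with hM
  rw [← E_conj]
  have h1 : MvPolynomial.map (starRingEnd ℂ) M.det
      = (M.map (MvPolynomial.map (starRingEnd ℂ) : S r → S r)).det := by
    exact RingHom.map_det (MvPolynomial.map (starRingEnd ℂ)) M
  have h2 : sg M.det = (M.map (sg : S r → S r)).det := by
    exact AlgHom.map_det sg M
  have h3 : M.map (MvPolynomial.map (starRingEnd ℂ) : S r → S r) = - M.map (sg : S r → S r) := by
    ext1 i j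
    simp only [Matrix.map_apply, Matrix.neg_apply, hM, Matrix.add_apply, GA, map_add, map_mul,
      map_sum, sg]
    simp only [MvPolynomial.map_C, MvPolynomial.map_X, aeval_X, MvPolynomial.algHom_C,
      MvPolynomial.algebraMap_eq, sgn, Complex.conj_I, Complex.conj_ofReal]
    by_cases hij : i = j
    · simp [hij, Finset.sum_neg_distrib]
      ring
    · simp [hij, Finset.sum_neg_distrib]
      ring
  rw [h1, h3, Matrix.det_neg, hJ.neg_one_pow, one_mul, ← h2, E_sg]

/-! ### polynomial dependence -/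

theorem f_poly (A0 : Matrix J J ℝ) (A : Fin r → Matrix J J ℝ) :
    ∃ a : ℕ → ℂ, a (Fintype.card J) = 1 ∧ ∀ v : ℝ,
      f A0 A ((Complex.I * (v : ℂ)) • (1 : Matrix J J ℂ))
        = ∑ j ∈ Finset.range (Fintype.card J + 1), a j * (Complex.I * (v : ℂ)) ^ j := by
  set G : Matrix J J (S r) := - GA A0 A with hG
  refine ⟨fun j => E r (G.charpoly.coeff j), ?_, fun v => ?_⟩
  · have h1 : G.charpoly.coeff (Fintype.card J) = 1 := by
      have := G.charpoly_monic
      rw [Polynomial.Monic, Polynomial.leadingCoeff, Matrix.charpoly_natDegree_eq_dim] at this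
      exact this
    simp only [h1, E_one]
  · unfold f
    have h2 : (((Complex.I * (v : ℂ)) • (1 : Matrix J J ℂ)).map C + GA A0 A : Matrix J J (S r))
        = Matrix.scalar J (C (Complex.I * (v : ℂ)) : S r) - G := by
      ext1 i j
      by_cases hij : i = j
      · subst hij
        simp [hG]
      · simp [hG, hij]
    rw [h2, ← Matrix.eval_charpoly, Polynomial.eval_eq_sum_range,
      Matrix.charpoly_natDegree_eq_dim, map_sum]
    refine Finset.sum_congr rfl fun j _ => ?_
    rw [← C_pow, mul_comm, E_C_mul, mul_comm]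

theorem poly_pos (n : ℕ) (a : ℕ → ℝ) (han : a n = 1) : ∀ v0 : ℝ, ∃ v1, v0 < v1 ∧
    0 < ∑ j ∈ Finset.range (n + 1), a j * v1 ^ j := by
  intro v0
  rw [show (fun v1 : ℝ => v0 < v1 ∧ 0 < ∑ j ∈ Finset.range (n + 1), a j * v1 ^ j)
    = fun v1 : ℝ => v0 < v1 ∧ 0 < (∑ j ∈ Finset.range n, a j * v1 ^ j) + v1 ^ n by
      funext v1; rw [Finset.sum_range_succ, han, one_mul]]
  cases n with
  | zero => exact ⟨v0 + 1, by linarith, by simp⟩
  | succ k =>
    set K : ℝ := ∑ j ∈ Finset.range (k + 1), |a j| with hK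
    have hK0 : 0 ≤ K := Finset.sum_nonneg fun _ _ => abs_nonneg _
    refine ⟨|v0| + K + 1, by have := le_abs_self v0; linarith, ?_⟩
    set v : ℝ := |v0| + K + 1 with hv
    have hv1 : 1 ≤ v := by have := abs_nonneg v0; linarith
    have h1 : -(K * v ^ k) ≤ ∑ j ∈ Finset.range (k + 1), a j * v ^ j := by
      rw [hK, Finset.sum_mul, ← Finset.sum_neg_distrib]
      refine Finset.sum_le_sum fun j hj => ?_
      have hj' : j ≤ k := Nat.lt_succ_iff.1 (Finset.mem_range.1 hj)
      have h2 : v ^ j ≤ v ^ k := pow_le_pow_right₀ hv1 hj'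
      have h3 : 0 ≤ v ^ j := by positivity
      have h4 : -|a j| ≤ a j := neg_abs_le _
      calc -(|a j| * v ^ k) ≤ -(|a j| * v ^ j) := by
            have := mul_le_mul_of_nonneg_left h2 (abs_nonneg (a j))
            linarith
        _ = (-|a j|) * v ^ j := by ring
        _ ≤ a j * v ^ j := mul_le_mul_of_nonneg_right h4 h3
    have h5 : K * v ^ k < v ^ (k + 1) := by
      rw [pow_succ, mul_comm]
      have : 0 < v ^ k := by positivity
      have h6 : K < v := by have := abs_nonneg v0; linarith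
      nlinarith
    linarith

/-- positivity from nonvanishing -/
theorem pos_of_ne (n : ℕ) (a : ℕ → ℝ) (han : a n = 1)
    (hne : ∀ v : ℝ, 0 < v → ∑ j ∈ Finset.range (n + 1), a j * v ^ j ≠ 0) : 0 ≤ a 0 := by
  set h : ℝ → ℝ := fun v => ∑ j ∈ Finset.range (n + 1), a j * v ^ j with hh
  have hc : Continuous h := by
    rw [hh]
    fun_prop
  have hpos : ∀ v, 0 < v → 0 < h v := by
    intro v hv
    by_contra hcon
    have h1 : h v ≤ 0 := not_lt.1 hcon
    obtain ⟨v1, hv1, hp⟩ := poly_pos n a han v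
    have h2 : (0 : ℝ) ∈ h '' Set.Icc v v1 :=
      intermediate_value_Icc hv1.le hc.continuousOn ⟨h1, hp.le⟩
    obtain ⟨c, hc1, hc2⟩ := h2
    exact hne c (lt_of_lt_of_le hv hc1.1) hc2
  have h0 : h 0 = a 0 := by
    rw [hh]
    simp only
    rw [Finset.sum_eq_single 0]
    · simp
    · intro j _ hj
      simp [hj]
    · intro h
      simp at h
  have h3 : 0 ≤ h 0 :=
    ge_of_tendsto ((hc.tendsto 0).mono_left nhdsWithin_le_nhds)
      (eventually_nhdsWithin_of_forall (s := Set.Ioi (0 : ℝ)) fun v hv => (hpos v hv).le)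
  rwa [h0] at h3

/-- the sign of the value at zero -/
theorem sign_zero (m : ℕ) (hJ : Fintype.card J = 2 * m) (A0 : Matrix J J ℝ)
    (A : Fin r → Matrix J J ℝ)
    (hne : ∀ v : ℝ, 0 < v → f A0 A ((Complex.I * (v : ℂ)) • (1 : Matrix J J ℂ)) ≠ 0) :
    0 ≤ (-1) ^ m * (E r (Matrix.det (GA A0 A))).re := by
  obtain ⟨a, ha1, ha⟩ := f_poly A0 A
  have hev : Even (Fintype.card J) := ⟨m, by omega⟩
  set b : ℕ → ℝ := fun j => (-1) ^ m * (a j * Complex.I ^ j).re with hb
  have hre : ∀ v : ℝ, (-1) ^ m * (f A0 A ((Complex.I * (v : ℂ)) • (1 : Matrix J J ℂ))).re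
      = ∑ j ∈ Finset.range (2 * m + 1), b j * v ^ j := by
    intro v
    rw [ha v, Complex.re_sum, Finset.mul_sum, hJ]
    refine Finset.sum_congr rfl fun j _ => ?_
    rw [hb]
    simp only
    have : a j * (Complex.I * (v : ℂ)) ^ j = ((v ^ j : ℝ) : ℂ) * (a j * Complex.I ^ j) := by
      push_cast
      ring
    rw [this, Complex.re_ofReal_mul]
    ring
  have hb1 : b (2 * m) = 1 := by
    rw [hb]
    simp only
    rw [← hJ, ha1, hJ, one_mul, pow_mul, Complex.I_sq]
    have h1 : ((-1 : ℂ) ^ m) = (((-1 : ℝ) ^ m : ℝ) : ℂ) := by push_cast; ring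
    rw [h1, Complex.ofReal_re, ← mul_pow]
    simp
  have h0 := pos_of_ne (2 * m) b hb1 (by
    intro v hv h
    rw [← hre v] at h
    have h2 := f_real A0 A hev v
    rw [Complex.conj_eq_iff_re] at h2
    have h3 : (f A0 A ((Complex.I * (v : ℂ)) • (1 : Matrix J J ℂ))).re = 0 := by
      rcases mul_eq_zero.1 h with h4 | h4
      · exact absurd h4 (pow_ne_zero _ (by norm_num))
      · exact h4
    rw [h3] at h2
    exact hne v hv (by rw [← h2]; simp))
  have h1 := hre 0
  have h2 : ((Complex.I * ((0 : ℝ) : ℂ)) • (1 : Matrix J J ℂ)).map C + GA A0 A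
      = (GA A0 A : Matrix J J (S r)) := by
    ext1 i j
    simp
  unfold f at h1
  rw [h2] at h1
  rw [h1, Finset.sum_eq_single 0]
  · simpa using h0
  · intro j _ hj
    simp [hj]
  · intro h
    simp at h

/-! ### transport of the nonvanishing theorem -/

theorem nonvanishJ (hNV : NonvanishStm) (θ : ℝ) (hθ : 0 ≤ θ) (hθ1 : θ < 1) (A0 : Matrix J J ℝ)
    (A : Fin r → Matrix J J ℝ) (h0 : ∀ i j, A0 i j = A0 j i) (hA : ∀ k i j, A k i j = A k j i)
    (hpos : ∀ x : J → ℝ, 0 ≤ ∑ i, ∑ j, A0 i j * (x i * x j))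
    (hle : ∀ x : J → ℝ, ∑ k, (∑ i, ∑ j, A k i j * (x i * x j)) ^ 2 ≤
      θ ^ 2 * (∑ i, ∑ j, A0 i j * (x i * x j)) ^ 2) (v : ℝ) (hv : 0 < v) :
    f A0 A ((Complex.I * (v : ℂ)) • (1 : Matrix J J ℂ)) ≠ 0 := by
  set e := Fintype.equivFin J with he
  have hsum : ∀ (B : Matrix J J ℝ) (x : Fin (Fintype.card J) → ℝ),
      ∑ i, ∑ j, B.submatrix e.symm e.symm i j * (x i * x j)
        = ∑ i, ∑ j, B i j * (x (e i) * x (e j)) := by
    intro B x
    rw [← Equiv.sum_comp e]
    refine Finset.sum_congr rfl fun i _ => ?_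
    rw [← Equiv.sum_comp e]
    refine Finset.sum_congr rfl fun j _ => ?_
    simp
  have h1 := hNV (Fintype.card J) r θ hθ hθ1 (A0.submatrix e.symm e.symm)
    (fun k => (A k).submatrix e.symm e.symm) (fun i j => h0 _ _) (fun k i j => hA k _ _)
    (fun x => by rw [hsum]; exact hpos fun i => x (e i))
    (fun x => by
      simp only [hsum]
      exact hle fun i => x (e i)) v hv
  have h2 : f (A0.submatrix e.symm e.symm) (fun k => (A k).submatrix e.symm e.symm)
      ((Complex.I * (v : ℂ)) • (1 : Matrix (Fin (Fintype.card J)) (Fin (Fintype.card J)) ℂ))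
      = f A0 A ((Complex.I * (v : ℂ)) • (1 : Matrix J J ℂ)) := by
    unfold f
    rw [← Matrix.det_submatrix_equiv_self e.symm
      (((Complex.I * (v : ℂ)) • (1 : Matrix J J ℂ)).map C + GA A0 A)]
    congr 2
    ext1 i j
    simp [GA, Matrix.one_apply]
  rwa [h2] at h1

/-! ### the arrays -/

/-- the curvature array of the unit sphere -/
def unit (a b c d : J) : ℝ :=
  (if a = c then 1 else 0) * (if b = d then 1 else 0)
    - (if b = c then 1 else 0) * (if a = d then 1 else 0)

theorem gb_cont {m : ℕ} (Q U : Fin m × Bool → Fin m × Bool → Fin m × Bool → Fin m × Bool → ℝ) :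
    Continuous fun δ : ℝ => gbJ (fun a b c d => Q a b c d + δ * U a b c d) := by
  unfold gbJ
  fun_prop

theorem gb_smul {m : ℕ} (c : ℝ)
    (Q : Fin m × Bool → Fin m × Bool → Fin m × Bool → Fin m × Bool → ℝ) :
    gbJ (fun a b c' d => c * Q a b c' d) = c ^ m * gbJ Q := by
  unfold gbJ
  rw [Finset.mul_sum]
  refine Finset.sum_congr rfl fun σ _ => ?_
  rw [Finset.mul_sum]
  refine Finset.sum_congr rfl fun τ _ => ?_
  rw [Finset.prod_mul_distrib, Finset.prod_const, Finset.card_univ, Fintype.card_fin]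
  ring

theorem gb_closed {m : ℕ} (Q U : Fin m × Bool → Fin m × Bool → Fin m × Bool → Fin m × Bool → ℝ)
    (h : ∀ δ : ℝ, 0 < δ → 0 ≤ gbJ (fun a b c d => Q a b c d + δ * U a b c d)) : 0 ≤ gbJ Q := by
  have hc := gb_cont Q U
  have h0 : gbJ (fun a b c d => Q a b c d + 0 * U a b c d) = gbJ Q := by
    congr 1
    funext a b c d
    ring
  rw [← h0]
  exact ge_of_tendsto ((hc.tendsto 0).mono_left nhdsWithin_le_nhds)
    (eventually_nhdsWithin_of_forall (s := Set.Ioi (0 : ℝ)) fun δ hδ => h δ hδ)

omit [DecidableEq J] in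
theorem sum_quartic (R : J → J → J → J → ℝ) (h1 : ∀ a b c d, R b a c d = - R a b c d)
    (x : J → ℝ) : ∑ i, ∑ j, ∑ k, ∑ l, R i k j l * (x i * x j * (x k * x l)) = 0 := by
  have e1 : ∑ i, ∑ j, ∑ k, ∑ l, R i k j l * (x i * x j * (x k * x l))
      = ∑ i, ∑ k, ∑ j, ∑ l, R i k j l * (x i * x j * (x k * x l)) :=
    Finset.sum_congr rfl fun i _ => Finset.sum_comm
  have e2 : ∑ i, ∑ k, ∑ j, ∑ l, R i k j l * (x i * x j * (x k * x l))
      = - ∑ i, ∑ k, ∑ j, ∑ l, R i k j l * (x i * x j * (x k * x l)) := by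
    nth_rewrite 1 [Finset.sum_comm]
    simp only [← Finset.sum_neg_distrib]
    refine Finset.sum_congr rfl fun i _ => Finset.sum_congr rfl fun k _ =>
      Finset.sum_congr rfl fun j _ => Finset.sum_congr rfl fun l _ => ?_
    rw [h1 i k j l]
    ring
  rw [e1]
  linarith

omit [DecidableEq J] in
theorem sum_square (B : Matrix J J ℝ) (x : J → ℝ) :
    (∑ i, ∑ j, B i j * (x i * x j)) ^ 2
      = ∑ i, ∑ j, ∑ k, ∑ l, B i j * B k l * (x i * x j * (x k * x l)) := by
  rw [sq, Finset.sum_mul]
  refine Finset.sum_congr rfl fun i _ => ?_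
  rw [Finset.sum_mul]
  refine Finset.sum_congr rfl fun j _ => ?_
  rw [Finset.mul_sum]
  refine Finset.sum_congr rfl fun k _ => ?_
  rw [Finset.mul_sum]
  exact Finset.sum_congr rfl fun l _ => by ring

omit [DecidableEq J] in
/-- the quartic form of an array `Bf` -/
theorem Bf_quartic (A0 : Matrix J J ℝ) (A : Fin r → Matrix J J ℝ) (x : J → ℝ) :
    ∑ i, ∑ j, ∑ k, ∑ l, Bf A0 A i j k l * (x i * x j * (x k * x l))
      = (∑ i, ∑ j, A0 i j * (x i * x j)) ^ 2 - ∑ a, (∑ i, ∑ j, A a i j * (x i * x j)) ^ 2 := by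
  have h1 : ∀ i j k l, Bf A0 A i j k l * (x i * x j * (x k * x l))
      = A0 i j * A0 k l * (x i * x j * (x k * x l))
        - ∑ a, A a i j * A a k l * (x i * x j * (x k * x l)) := by
    intro i j k l
    unfold Bf
    rw [sub_mul, Finset.sum_mul]
  simp only [h1, Finset.sum_sub_distrib]
  rw [sum_square]
  congr 1
  simp only [sum_square]
  symm
  rw [Finset.sum_comm]
  refine Finset.sum_congr rfl fun i _ => ?_
  rw [Finset.sum_comm]
  refine Finset.sum_congr rfl fun j _ => ?_
  rw [Finset.sum_comm]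
  refine Finset.sum_congr rfl fun k _ => ?_
  rw [Finset.sum_comm]

theorem sum_one (c : ℝ) (x : J → ℝ) :
    ∑ i, ∑ j, (c • (1 : Matrix J J ℝ)) i j * (x i * x j) = c * ∑ i, x i ^ 2 := by
  rw [Finset.mul_sum]
  refine Finset.sum_congr rfl fun i _ => ?_
  rw [Finset.sum_eq_single i]
  · rw [Matrix.smul_apply, Matrix.one_apply_eq, smul_eq_mul]
    ring
  · intro j _ hj
    simp [hj.symm]
  · intro h
    exact absurd (Finset.mem_univ i) h

theorem strict_case (hW : WickStm) (hD : DecompStm) (hNV : NonvanishStm) (m : ℕ)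
    (R : Fin m × Bool → Fin m × Bool → Fin m × Bool → Fin m × Bool → ℝ)
    (s1 : ∀ a b c d, R b a c d = - R a b c d) (s2 : ∀ a b c d, R c d a b = R a b c d)
    (s3 : ∀ a b c d, R a b c d + R b c a d + R c a b d = 0) (κ : ℝ) (hκ : 0 < κ)
    (hform : ∀ h : Fin m × Bool → Fin m × Bool → ℝ, (∀ a b, h a b = h b a) → ∑ a, h a a = 0 →
      ∑ i, ∑ j, ∑ k, ∑ l, R i k j l * (h i j * h k l) ≤ -(κ * ∑ i, ∑ j, h i j * h i j)) :
    0 ≤ gbJ R := by
  obtain ⟨r, A, lam, hlam, hAs, hB⟩ := hD (Fin m × Bool) R s1 s2 s3 κ hκ hform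
  have main : 0 ≤ gbJ (fun a b c d => 3 / 2 * R a b c d) := by
    refine gb_closed _ unit fun δ hδ => ?_
    set mu : ℝ := Real.sqrt (lam ^ 2 + δ) with hmu
    have hmu2 : mu ^ 2 = lam ^ 2 + δ := Real.sq_sqrt (by positivity)
    have hmu0 : 0 < mu := Real.sqrt_pos.2 (by positivity)
    have hlm : lam < mu := by
      apply lt_of_pow_lt_pow_left₀ 2 hmu0.le
      rw [hmu2]
      linarith
    have hquart : ∀ x : Fin m × Bool → ℝ, ∑ a, (∑ i, ∑ j, A a i j * (x i * x j)) ^ 2
        = (lam * ∑ i, x i ^ 2) ^ 2 := by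
      intro x
      have h1 := Bf_quartic (lam • (1 : Matrix (Fin m × Bool) (Fin m × Bool) ℝ)) A x
      rw [sum_one] at h1
      have h2 : ∑ i, ∑ j, ∑ k, ∑ l, Bf (lam • (1 : Matrix (Fin m × Bool) (Fin m × Bool) ℝ)) A
          i j k l * (x i * x j * (x k * x l)) = 0 := by
        simp only [hB]
        have h3 : ∀ i j k l, 1 / 2 * (R i k j l + R i l j k) * (x i * x j * (x k * x l))
            = 1 / 2 * (R i k j l * (x i * x j * (x k * x l)))
              + 1 / 2 * (R i l j k * (x i * x j * (x l * x k))) := by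
          intro i j k l
          ring
        simp only [h3, Finset.sum_add_distrib, ← Finset.mul_sum]
        rw [sum_quartic R s1 x]
        have h4 : ∑ i, ∑ j, ∑ k, ∑ l, R i l j k * (x i * x j * (x l * x k)) = 0 := by
          rw [← sum_quartic R s1 x]
          refine Finset.sum_congr rfl fun i _ => Finset.sum_congr rfl fun j _ => ?_
          rw [Finset.sum_comm]
        rw [h4]
        ring
      rw [h2] at h1
      linarith
    have hne : ∀ v : ℝ, 0 < v → f (mu • (1 : Matrix (Fin m × Bool) (Fin m × Bool) ℝ)) A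
        ((Complex.I * (v : ℂ)) • (1 : Matrix (Fin m × Bool) (Fin m × Bool) ℂ)) ≠ 0 := by
      refine nonvanishJ hNV (lam / mu) (by positivity) ((div_lt_one hmu0).2 hlm) _ A ?_ hAs ?_ ?_
      · intro i j
        simp only [Matrix.smul_apply, Matrix.one_apply, eq_comm]
      · intro x
        rw [sum_one]
        exact mul_nonneg hmu0.le (Finset.sum_nonneg fun _ _ => sq_nonneg _)
      · intro x
        rw [hquart, sum_one]
        apply le_of_eq
        field_simp
    have hcard : Fintype.card (Fin m × Bool) = 2 * m := by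
      simp [mul_comm]
    have hs := sign_zero m hcard (mu • (1 : Matrix (Fin m × Bool) (Fin m × Bool) ℝ)) A hne
    obtain ⟨c, hc, hw⟩ := hW m
    rw [hw r _ A, Complex.ofReal_re] at hs
    have hQ : (fun i k j l => Bf (mu • (1 : Matrix (Fin m × Bool) (Fin m × Bool) ℝ)) A i j k l
        - Bf (mu • (1 : Matrix (Fin m × Bool) (Fin m × Bool) ℝ)) A k j i l)
        = fun a b c d => 3 / 2 * R a b c d + δ * unit a b c d := by
      funext i k j l
      have hBm : ∀ i j k l, Bf (mu • (1 : Matrix (Fin m × Bool) (Fin m × Bool) ℝ)) A i j k l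
          = 1 / 2 * (R i k j l + R i l j k)
            + δ * ((if i = j then 1 else 0) * (if k = l then 1 else 0)) := by
        intro i j k l
        rw [← hB]
        unfold Bf
        simp only [Matrix.smul_apply, Matrix.one_apply, smul_eq_mul]
        have : mu * (if i = j then (1 : ℝ) else 0) * (mu * (if k = l then 1 else 0))
            = mu ^ 2 * ((if i = j then 1 else 0) * (if k = l then 1 else 0)) := by ring
        rw [this, hmu2]
        ring
      rw [hBm, hBm]
      unfold unit
      have t1 := s1 i k j l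
      have t2 := s3 i l j k
      have t3 := s2 l j i k
      have t4 := s1 i k l j
      have t5 := s2 k l j i
      have t6 := s1 k l i j
      have t7 := s2 j i l k
      have t8 := s2 i j k l
      have t9 := s1 j i k l
      have t10 := s1 j i l k
      have t11 := s2 i k l j
      have t12 := s2 i k j l
      have t13 := s1 l j i k
      have t14 := s1 j l i k
      have t15 := s1 k l j i
      have t16 := s1 k l i j
      have t17 := s2 j i k l
      have t18 := s2 i j l k
      have t19 := s1 i j k l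
      have t20 := s1 i j l k
      linarith
    rw [hQ] at hs
    have h5 : (-1 : ℝ) ^ m * ((-1) ^ m * c * gbJ (fun a b c d => 3 / 2 * R a b c d
        + δ * unit a b c d)) = c * gbJ (fun a b c d => 3 / 2 * R a b c d + δ * unit a b c d) := by
      have : (-1 : ℝ) ^ m * (-1) ^ m = 1 := by rw [← mul_pow]; simp
      rw [← mul_assoc, ← mul_assoc, this, one_mul]
    rw [h5] at hs
    exact nonneg_of_mul_nonneg_right hs hc
  rw [gb_smul] at main
  exact nonneg_of_mul_nonneg_right main (by positivity)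

theorem unit_form (h : J → J → ℝ) (hs : ∀ a b, h a b = h b a) (ht : ∑ a, h a a = 0) :
    ∑ i, ∑ j, ∑ k, ∑ l, unit i k j l * (h i j * h k l) = - ∑ i, ∑ j, h i j * h i j := by
  have h1 : ∀ i j, ∑ k, ∑ l, unit i k j l * (h i j * h k l)
      = (if i = j then h i j * ∑ k, h k k else 0) - h i j * h j i := by
    intro i j
    unfold unit
    have h2 : ∀ k l, ((if i = j then (1 : ℝ) else 0) * (if k = l then 1 else 0)
        - (if k = j then 1 else 0) * (if i = l then 1 else 0)) * (h i j * h k l)
        = (if i = j then 1 else 0) * h i j * (if k = l then h k l else 0)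
          - h i j * (if k = j then (if i = l then h k l else 0) else 0) := by
      intro k l
      split_ifs <;> ring
    simp only [h2, Finset.sum_sub_distrib, ← Finset.mul_sum]
    simp
  simp only [h1, ht, mul_zero]
  simp only [ite_self, zero_sub, Finset.sum_neg_distrib]
  congr 1
  exact Finset.sum_congr rfl fun i _ => Finset.sum_congr rfl fun j _ => by rw [hs j i]

theorem sign : SignStm := by
  intro hW hD hNV m R s1 s2 s3 hform
  refine gb_closed R unit fun κ hκ => ?_
  refine strict_case hW hD hNV m _ ?_ ?_ ?_ κ hκ ?_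
  · intro a b c d
    rw [s1 a b c d]
    unfold unit
    ring
  · intro a b c d
    rw [s2 a b c d]
    unfold unit
    simp only [eq_comm]
    ring
  · intro a b c d
    have := s3 a b c d
    have h2 : unit a b c d + unit b c a d + unit c a b d = (0 : ℝ) := by
      unfold unit
      simp only [eq_comm]
      ring
    linear_combination this + κ * h2
  · intro h hs ht
    have h1 := hform h hs ht
    have h2 := unit_form h hs ht
    have h3 : ∑ i, ∑ j, ∑ k, ∑ l, (R i k j l + κ * unit i k j l) * (h i j * h k l)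
        = ∑ i, ∑ j, ∑ k, ∑ l, R i k j l * (h i j * h k l)
          + κ * ∑ i, ∑ j, ∑ k, ∑ l, unit i k j l * (h i j * h k l) := by
      simp only [Finset.mul_sum, ← Finset.sum_add_distrib]
      refine Finset.sum_congr rfl fun i _ => Finset.sum_congr rfl fun j _ =>
        Finset.sum_congr rfl fun k _ => Finset.sum_congr rfl fun l _ => by ring
    rw [h3, h2]
    linarith

end Pool.Agent.Helper95.HY
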